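import Pool.Agent.Y690.PP.Stm

/-!
# Project PP: basic facts on boxes of finite sets of Gaussian primes
-/

set_option autoImplicit false

open Finset

namespace Pool.Agent.Y678.PP

open Pool.Agent.Y690.PP

theorem nm_mul (v w : G) : nm (v * w) = nm v * nm w := by
  unfold nm
  rw [Zsqrtd.norm_mul, Int.natAbs_mul]

theorem nm_one : nm 1 = 1 := by
  unfold nm
  simp [Zsqrtd.norm_def]

theorem nm_prod (A : Finset Pr) : nm (∏ p ∈ A, p.1) = NN gN A := by
  classical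
  unfold NN
  induction A using Finset.induction_on with
  | empty => simpa using nm_one
  | insert p A hp ih =>
    rw [Finset.prod_insert hp, Finset.prod_insert hp, nm_mul, ih]
    rfl

theorem nm_eq (v : G) : (nm v : ℝ) = (v.re : ℝ) ^ 2 + (v.im : ℝ) ^ 2 := by
  have h : (nm v : ℤ) = v.re ^ 2 + v.im ^ 2 := by
    unfold nm
    rw [Int.natCast_natAbs, Zsqrtd.norm_def, abs_of_nonneg]
    · ring
    · nlinarith [mul_self_nonneg v.re, mul_self_nonneg v.im]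
  have h' : ((nm v : ℤ) : ℝ) = ((v.re ^ 2 + v.im ^ 2 : ℤ) : ℝ) := by rw [h]
  push_cast at h'
  exact h'

theorem nm_fin (x : ℝ) : {v : G | (nm v : ℝ) ≤ x}.Finite := by
  have hfin : ((Set.Icc (-⌈x⌉) ⌈x⌉) ×ˢ (Set.Icc (-⌈x⌉) ⌈x⌉) : Set (ℤ × ℤ)).Finite :=
    (Set.finite_Icc _ _).prod (Set.finite_Icc _ _)
  refine (hfin.image (fun z : ℤ × ℤ => (⟨z.1, z.2⟩ : G))).subset ?_
  intro v hv
  have hv' : (v.re : ℝ) ^ 2 + (v.im : ℝ) ^ 2 ≤ x := by
    rw [← nm_eq]; exact hv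
  have key : ∀ n : ℤ, (n : ℝ) ^ 2 ≤ x → n ∈ Set.Icc (-⌈x⌉) ⌈x⌉ := by
    intro n hn
    have h1 : ((n ^ 2 : ℤ) : ℝ) ≤ ((⌈x⌉ : ℤ) : ℝ) := by
      push_cast
      exact hn.trans (Int.le_ceil x)
    have h2 : n ^ 2 ≤ ⌈x⌉ := by exact_mod_cast h1
    constructor
    · have : -n ≤ n ^ 2 := by
        rcases le_or_gt 0 n with h | h
        · nlinarith [sq_nonneg n]
        · nlinarith
      linarith
    · have : n ≤ n ^ 2 := by
        rcases le_or_gt n 0 with h | h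
        · nlinarith [sq_nonneg n]
        · nlinarith
      linarith
  refine ⟨(v.re, v.im), ⟨key _ ?_, key _ ?_⟩, ?_⟩
  · nlinarith [sq_nonneg (v.im : ℝ)]
  · nlinarith [sq_nonneg (v.re : ℝ)]
  · rfl

theorem mem_disc {x : ℝ} {v : G} : v ∈ disc x ↔ (nm v : ℝ) ≤ x := by
  unfold disc
  rw [dif_pos (nm_fin x)]
  simp

/-- the product of the elements of a finite set of primes -/
noncomputable def pr (A : Finset Pr) : G := ∏ p ∈ A, p.1

theorem pr_inj (h4 : SFAC) : Function.Injective pr := by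
  intro A B h
  have h1 : Prm (1 : G) := by unfold Prm; simp
  have := h4.2 1 1 A B h1 h1 (by
    have h' : ∏ p ∈ A, p.1 = ∏ p ∈ B, p.1 := h
    rw [h'])
  exact this.2

theorem nm_pr (A : Finset Pr) : nm (pr A) = NN gN A := nm_prod A

theorem FF_fin (h4 : SFAC) (x : ℝ) : {A : Finset Pr | (NN gN A : ℝ) ≤ x}.Finite := by
  refine Set.Finite.of_injOn (f := pr) (t := {v : G | (nm v : ℝ) ≤ x}) ?_ ?_ (nm_fin x)
  · intro A hA
    simp only [Set.mem_ofPred_eq] at hA ⊢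
    rw [nm_pr]; exact hA
  · exact (pr_inj h4).injOn

theorem mem_FF (h4 : SFAC) {x : ℝ} {A : Finset Pr} : A ∈ FF gN x ↔ (NN gN A : ℝ) ≤ x := by
  unfold FF
  rw [dif_pos (FF_fin h4 x)]
  simp

theorem card_ann (h4 : SFAC) (x y : ℝ) :
    #((FF gN y).filter fun A => x < (NN gN A : ℝ)) ≤ #((disc y).filter fun v => x < (nm v : ℝ)) := by
  refine Finset.card_le_card_of_injOn pr ?_ ((pr_inj h4).injOn)
  intro A hA
  simp only [Finset.coe_filter, Set.mem_ofPred_eq] at hA ⊢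
  rw [mem_FF h4] at hA
  rw [mem_disc, nm_pr]
  exact hA

theorem NN_pos (A : Finset Pr) : 0 < NN gN A := by
  unfold NN
  refine Finset.prod_pos fun p _ => ?_
  unfold gN nm
  have hp : p.1 ≠ 0 := p.2.1.ne_zero
  rw [Int.natAbs_pos]
  intro h
  rw [GaussianInt.norm_eq_zero] at h
  exact hp h

theorem one_le_NN (A : Finset Pr) : (1 : ℝ) ≤ NN gN A := by
  exact_mod_cast NN_pos A

theorem qs_abs (p a : G) : |(qs p a : ℝ)| ≤ 1 := by
  unfold qs
  split_ifs <;> simp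

theorem sy_abs (A B : Finset Pr) : |sy gs A B| ≤ 1 := by
  unfold sy
  rw [Finset.abs_prod]
  refine Finset.prod_le_one (fun _ _ => abs_nonneg _) fun p _ => ?_
  rw [Finset.abs_prod]
  refine Finset.prod_le_one (fun _ _ => abs_nonneg _) fun q _ => ?_
  exact qs_abs _ _

theorem sy_symm (h1 : SREC) (A B : Finset Pr) : sy gs A B = sy gs B A := by
  unfold sy
  rw [Finset.prod_comm]
  refine Finset.prod_congr rfl fun q _ => Finset.prod_congr rfl fun p _ => ?_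
  unfold gs
  rw [h1 p.1 q.1 p.2.1 p.2.2 q.2.1 q.2.2]

/-- a dyadic box -/
noncomputable def bx (U : ℝ) : Finset (Finset Pr) :=
  (FF gN (2 * U)).filter (fun A => U < (NN gN A : ℝ))

theorem mem_bx (h4 : SFAC) {U : ℝ} {A : Finset Pr} :
    A ∈ bx U ↔ (NN gN A : ℝ) ≤ 2 * U ∧ U < (NN gN A : ℝ) := by
  unfold bx
  rw [Finset.mem_filter, mem_FF h4]

theorem ann_bound (h2 : SANN) (h4 : SFAC) : ∃ C : ℝ, 0 < C ∧ ∀ x y : ℝ, 1 ≤ x → 1 ≤ y →
    (#((FF gN (x + y)).filter fun A => x < (NN gN A : ℝ)) : ℝ) ≤ C * ((x + y) * y) ^ (1 / 2 : ℝ) := by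
  obtain ⟨C, hC⟩ := h2
  refine ⟨max C 1, by positivity, fun x y hx hy => ?_⟩
  have h : (#((FF gN (x + y)).filter fun A => x < (NN gN A : ℝ)) : ℝ) ≤
      (#((disc (x + y)).filter fun v => x < (nm v : ℝ)) : ℝ) := by
    exact_mod_cast card_ann h4 x (x + y)
  refine h.trans ((hC x y hx hy).trans ?_)
  gcongr
  exact le_max_left _ _

theorem bx_bound (h2 : SANN) (h4 : SFAC) : ∃ C : ℝ, 0 < C ∧ ∀ U : ℝ, 1 ≤ U →
    (#(bx U) : ℝ) ≤ C * U := by
  obtain ⟨C, hC0, hC⟩ := ann_bound h2 h4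
  refine ⟨2 * C, by positivity, fun U hU => ?_⟩
  have h := hC U U hU hU
  have h3 : ((U + U) * U) ^ (1 / 2 : ℝ) ≤ 2 * U := by
    rw [← Real.sqrt_eq_rpow]
    rw [Real.sqrt_le_left (by positivity)]
    nlinarith
  unfold bx
  rw [two_mul]
  calc _ ≤ C * ((U + U) * U) ^ (1 / 2 : ℝ) := h
    _ ≤ C * (2 * U) := by gcongr
    _ = _ := by ring

end Pool.Agent.Y678.PP
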