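import Pool.Agent.Y678.PP.Bas

/-!
# Project PP, job PP-BOX1: large sieve for quadratic symbols, long variable
-/

set_option autoImplicit false

open Finset

namespace Pool.Agent.Y678.PP

open Pool.Agent.Y690.PP

theorem card_disc {x : ℝ} (hx : 1 ≤ x) : (#(disc x) : ℝ) ≤ 9 * x := by
  classical
  have hx0 : 0 < x := by linarith
  set r : ℕ := ⌊Real.sqrt x⌋₊ with hr
  have hr1 : (r : ℝ) ≤ Real.sqrt x := Nat.floor_le (Real.sqrt_nonneg x)
  have hs1 : 1 ≤ Real.sqrt x := by rw [Real.le_sqrt (by norm_num) hx0.le]; linarith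
  have hss : Real.sqrt x * Real.sqrt x = x := Real.mul_self_sqrt hx0.le
  have key : ∀ n : ℤ, (n : ℝ) ^ 2 ≤ x → n ∈ Finset.Icc (-(r : ℤ)) (r : ℤ) := by
    intro n hn
    have h1 : |(n : ℝ)| ≤ Real.sqrt x := Real.abs_le_sqrt hn
    have h2 : (n.natAbs : ℝ) ≤ Real.sqrt x := by
      rw [Nat.cast_natAbs]; push_cast; exact h1
    have h3 : n.natAbs ≤ r := Nat.le_floor h2
    rw [Finset.mem_Icc]
    omega
  have hsub : disc x ⊆ ((Finset.Icc (-(r : ℤ)) (r : ℤ)) ×ˢ (Finset.Icc (-(r : ℤ)) (r : ℤ))).image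
      (fun z : ℤ × ℤ => (⟨z.1, z.2⟩ : G)) := by
    intro v hv
    rw [mem_disc, nm_eq] at hv
    rw [Finset.mem_image]
    refine ⟨(v.re, v.im), ?_, rfl⟩
    rw [Finset.mem_product]
    exact ⟨key _ (by nlinarith [sq_nonneg (v.im : ℝ)]), key _ (by nlinarith [sq_nonneg (v.re : ℝ)])⟩
  have h1 := (Finset.card_le_card hsub).trans Finset.card_image_le
  rw [Finset.card_product, Int.card_Icc] at h1
  have h2 : ((r : ℤ) + 1 - -(r : ℤ)).toNat = 2 * r + 1 := by omega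
  rw [h2] at h1
  have h3 : (#(disc x) : ℝ) ≤ (2 * r + 1) * (2 * r + 1) := by exact_mod_cast h1
  have h4 : (2 * (r : ℝ) + 1) ≤ 3 * Real.sqrt x := by linarith
  calc (#(disc x) : ℝ) ≤ (2 * r + 1) * (2 * r + 1) := h3
    _ ≤ (3 * Real.sqrt x) * (3 * Real.sqrt x) := by gcongr
    _ = 9 * x := by rw [show (3 * Real.sqrt x) * (3 * Real.sqrt x) = 9 * (Real.sqrt x * Real.sqrt x) by ring, hss]

theorem card_bx (h4 : SFAC) {U : ℝ} (hU : 1 ≤ U) : (#(bx U) : ℝ) ≤ 18 * U := by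
  have h1 : #(bx U) ≤ #((disc (2 * U)).filter fun v => U < (nm v : ℝ)) := card_ann h4 U (2 * U)
  have h2 : #(bx U) ≤ #(disc (2 * U)) := h1.trans (Finset.card_filter_le _ _)
  have h3 : (#(bx U) : ℝ) ≤ #(disc (2 * U)) := by exact_mod_cast h2
  have h5 := card_disc (show (1 : ℝ) ≤ 2 * U by linarith)
  linarith

/-- the character of a finite set of primes -/
noncomputable def chi (A : Finset Pr) (v : G) : ℝ := ∏ p ∈ A, (qs p.1 v : ℝ)

theorem chi_abs (A : Finset Pr) (v : G) : |chi A v| ≤ 1 := by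
  unfold chi
  rw [Finset.abs_prod]
  exact Finset.prod_le_one (fun _ _ => abs_nonneg _) fun q _ => qs_abs _ _

theorem prod_split {M : Type} [CommMonoid M] [DecidableEq Pr] (A B : Finset Pr) (f : Pr → M) :
    (∏ p ∈ A, f p) * (∏ p ∈ B, f p) = (∏ p ∈ symmDiff A B, f p) * ∏ p ∈ A ∩ B, f p ^ 2 := by
  have h1 : ∏ p ∈ symmDiff A B, f p = (∏ p ∈ A \ B, f p) * ∏ p ∈ B \ A, f p := by
    rw [symmDiff_def, Finset.sup_eq_union, Finset.prod_union]
    rw [Finset.disjoint_left]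
    intro a ha hb
    rw [Finset.mem_sdiff] at ha hb
    exact ha.2 hb.1
  have h2 := Finset.prod_inter_mul_prod_sdiff A B f
  have h3 := Finset.prod_inter_mul_prod_sdiff B A f
  rw [Finset.inter_comm B A] at h3
  rw [← h2, ← h3, h1, Finset.prod_pow, sq]
  ac_rfl

theorem hh_eq [DecidableEq Pr] (A B : Finset Pr) {v : G} (hv : Prm v) :
    hh (symmDiff A B) (A ∩ B) 0 v = chi A v * chi B v := by
  unfold hh chi
  rw [if_pos hv, pow_zero, one_mul, prod_split]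

theorem hh_abs (A B : Finset Pr) (v : G) : |hh A B 0 v| ≤ 1 := by
  unfold hh
  split_ifs
  · rw [pow_zero, one_mul, abs_mul]
    refine mul_le_one₀ (chi_abs A v) (abs_nonneg _) ?_
    rw [Finset.abs_prod]
    refine Finset.prod_le_one (fun _ _ => abs_nonneg _) fun q _ => ?_
    rw [abs_pow]
    exact pow_le_one₀ (abs_nonneg _) (qs_abs _ _)
  · simp

theorem period_le [DecidableEq Pr] {A B : Finset Pr} {U : ℝ} (hA : (NN gN A : ℝ) ≤ 2 * U)
    (hB : (NN gN B : ℝ) ≤ 2 * U) :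
    ((8 * NN gN (symmDiff A B) * NN gN (A ∩ B) : ℕ) : ℝ) ≤ 32 * U ^ 2 := by
  have h1 : NN gN A * NN gN B = NN gN (symmDiff A B) * NN gN (A ∩ B) ^ 2 := by
    unfold NN
    rw [prod_split, Finset.prod_pow]
  have h2 : (NN gN (symmDiff A B) : ℝ) * NN gN (A ∩ B) ≤ NN gN A * NN gN B := by
    have h3 : (NN gN A : ℝ) * NN gN B = NN gN (symmDiff A B) * (NN gN (A ∩ B) : ℝ) ^ 2 := by
      exact_mod_cast h1
    rw [h3]
    have h4 := one_le_NN (A ∩ B)
    have h5 := one_le_NN (symmDiff A B)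
    have : (NN gN (A ∩ B) : ℝ) ≤ (NN gN (A ∩ B) : ℝ) ^ 2 := by nlinarith
    gcongr
  push_cast
  have h6 : (NN gN A : ℝ) * NN gN B ≤ (2 * U) * (2 * U) := by
    have hU : (0 : ℝ) ≤ 2 * U := by linarith [one_le_NN A]
    exact mul_le_mul hA hB (Nat.cast_nonneg _) hU
  nlinarith

open Classical in
/-- the correlation of two characters -/
theorem corr (h2 : SMEAN) (h3 : SDISC) : ∃ C : ℝ, 0 < C ∧ ∀ (A B : Finset Pr) (U V : ℝ),
    A ≠ B → 1 ≤ U → 1 ≤ V → (NN gN A : ℝ) ≤ 2 * U → (NN gN B : ℝ) ≤ 2 * U →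
    |∑ v ∈ (disc V).filter (fun v => Prm v), chi A v * chi B v| ≤ C * U * V ^ (3 / 4 : ℝ) := by
  classical
  obtain ⟨C, hC⟩ := h3
  refine ⟨6 * max C 1, by positivity, ?_⟩
  intro A B U V hAB hU hV hA hB
  have hne : (symmDiff A B).Nonempty := by
    rw [Finset.nonempty_iff_ne_empty]
    intro h
    exact hAB (symmDiff_eq_bot.1 h)
  obtain ⟨k1, k2⟩ := h2 (symmDiff A B) (A ∩ B) 0 (Or.inl hne)
  set M : ℕ := 8 * NN gN (symmDiff A B) * NN gN (A ∩ B) with hM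
  have hM1 : 1 ≤ M := by
    have := NN_pos (symmDiff A B)
    have := NN_pos (A ∩ B)
    rw [hM]
    have : 0 < 8 * NN gN (symmDiff A B) * NN gN (A ∩ B) := by positivity
    omega
  have h := hC M (hh (symmDiff A B) (A ∩ B) 0) hM1 (hh_abs _ _) k1 k2 V hV
  have e : ∑ v ∈ (disc V).filter (fun v => Prm v), chi A v * chi B v =
      ∑ v ∈ disc V, hh (symmDiff A B) (A ∩ B) 0 v := by
    rw [Finset.sum_filter]
    refine Finset.sum_congr rfl fun v _ => ?_
    by_cases hv : Prm v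
    · rw [if_pos hv, hh_eq A B hv]
    · rw [if_neg hv]
      unfold hh
      rw [if_neg hv]
  rw [e]
  refine h.trans ?_
  have hU0 : 0 < U := by linarith
  have hM2 : (M : ℝ) ^ (1 / 2 : ℝ) ≤ 6 * U := by
    have h5 : (M : ℝ) ≤ (6 * U) ^ 2 := by
      have := period_le hA hB
      nlinarith
    rw [← Real.sqrt_eq_rpow]
    rw [Real.sqrt_le_left (by positivity)]
    exact h5
  calc C * (M : ℝ) ^ (1 / 2 : ℝ) * V ^ (3 / 4 : ℝ) ≤ max C 1 * (6 * U) * V ^ (3 / 4 : ℝ) := by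
        gcongr
        exact le_max_left _ _
    _ = _ := by ring

/-- Job PP-BOX1. -/
theorem t_BOX1 (_h1 : SMULT) (h2 : SMEAN) (h3 : SDISC) (h4 : SFAC) : SBOX1 := by
  classical
  obtain ⟨C, hC, H⟩ := corr h2 h3
  refine ⟨9 + 18 * C, ?_⟩
  intro c U V hU hUV
  have hU0 : 0 < U := by linarith
  have hV : 1 ≤ V := le_trans (one_le_pow₀ hU) hUV
  have hV0 : 0 < V := by linarith
  change ∑ v ∈ (disc V).filter (fun v => Prm v), (∑ A ∈ bx U, c A * chi A v) ^ 2 ≤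
    (9 + 18 * C) * V * ∑ A ∈ bx U, c A ^ 2
  set D := (disc V).filter (fun v => Prm v) with hD
  set E : ℝ := C * U * V ^ (3 / 4 : ℝ) with hE
  have hE0 : 0 ≤ E := by positivity
  have hcorr : ∀ A ∈ bx U, ∀ B ∈ bx U,
      |∑ v ∈ D, chi A v * chi B v| ≤ (if A = B then 9 * V else 0) + E := by
    intro A hA B hB
    rw [mem_bx h4] at hA hB
    by_cases hAB : A = B
    · rw [if_pos hAB]
      have h5 : |∑ v ∈ D, chi A v * chi B v| ≤ ∑ v ∈ D, (1 : ℝ) := by
        refine (Finset.abs_sum_le_sum_abs _ _).trans (Finset.sum_le_sum fun v _ => ?_)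
        rw [abs_mul]
        exact mul_le_one₀ (chi_abs _ _) (abs_nonneg _) (chi_abs _ _)
      have h6 : ∑ v ∈ D, (1 : ℝ) ≤ 9 * V := by
        rw [Finset.sum_const, nsmul_eq_mul, mul_one]
        refine le_trans ?_ (card_disc hV)
        exact_mod_cast Finset.card_filter_le _ _
      linarith
    · rw [if_neg hAB, zero_add]
      exact H A B U V hAB hU hV hA.1 hB.1
  have hexp : ∑ v ∈ D, (∑ A ∈ bx U, c A * chi A v) ^ 2 =
      ∑ A ∈ bx U, ∑ B ∈ bx U, c A * c B * ∑ v ∈ D, chi A v * chi B v := by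
    calc ∑ v ∈ D, (∑ A ∈ bx U, c A * chi A v) ^ 2 =
        ∑ v ∈ D, ∑ A ∈ bx U, ∑ B ∈ bx U, c A * c B * (chi A v * chi B v) := by
          refine Finset.sum_congr rfl fun v _ => ?_
          rw [sq, Finset.sum_mul_sum]
          refine Finset.sum_congr rfl fun A _ => Finset.sum_congr rfl fun B _ => ?_
          ring
      _ = ∑ A ∈ bx U, ∑ v ∈ D, ∑ B ∈ bx U, c A * c B * (chi A v * chi B v) := Finset.sum_comm
      _ = _ := by
          refine Finset.sum_congr rfl fun A _ => ?_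
          rw [Finset.sum_comm]
          refine Finset.sum_congr rfl fun B _ => ?_
          rw [Finset.mul_sum]
  rw [hexp]
  have hbd : ∑ A ∈ bx U, ∑ B ∈ bx U, c A * c B * ∑ v ∈ D, chi A v * chi B v ≤
      ∑ A ∈ bx U, ∑ B ∈ bx U, |c A| * |c B| * ((if A = B then 9 * V else 0) + E) := by
    refine Finset.sum_le_sum fun A hA => Finset.sum_le_sum fun B hB => ?_
    calc c A * c B * ∑ v ∈ D, chi A v * chi B v ≤ |c A * c B * ∑ v ∈ D, chi A v * chi B v| := le_abs_self _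
      _ = |c A| * |c B| * |∑ v ∈ D, chi A v * chi B v| := by rw [abs_mul, abs_mul]
      _ ≤ _ := by
          refine mul_le_mul_of_nonneg_left (hcorr A hA B hB) (by positivity)
  refine hbd.trans ?_
  have hsplit : ∑ A ∈ bx U, ∑ B ∈ bx U, |c A| * |c B| * ((if A = B then 9 * V else 0) + E) =
      9 * V * ∑ A ∈ bx U, c A ^ 2 + E * (∑ A ∈ bx U, |c A|) ^ 2 := by
    have e1 : ∀ A ∈ bx U, ∑ B ∈ bx U, |c A| * |c B| * ((if A = B then 9 * V else 0) + E) =
        9 * V * c A ^ 2 + E * (|c A| * ∑ B ∈ bx U, |c B|) := by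
      intro A hA
      have : ∀ B ∈ bx U, |c A| * |c B| * ((if A = B then 9 * V else 0) + E) =
          (if A = B then 9 * V * (|c A| * |c B|) else 0) + E * (|c A| * |c B|) := by
        intro B _
        split_ifs <;> ring
      rw [Finset.sum_congr rfl this, Finset.sum_add_distrib, Finset.sum_ite_eq, if_pos hA,
        ← Finset.mul_sum, ← Finset.mul_sum, abs_mul_abs_self, sq]
    rw [Finset.sum_congr rfl e1, Finset.sum_add_distrib, ← Finset.mul_sum, ← Finset.mul_sum,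
      ← Finset.sum_mul, sq (∑ A ∈ bx U, |c A|)]
  rw [hsplit]
  have hcs : (∑ A ∈ bx U, |c A|) ^ 2 ≤ 18 * U * ∑ A ∈ bx U, c A ^ 2 := by
    have h5 := sq_sum_le_card_mul_sum_sq (s := bx U) (f := fun A => |c A|)
    simp only [sq_abs] at h5
    refine h5.trans ?_
    refine mul_le_mul_of_nonneg_right (card_bx h4 hU) (Finset.sum_nonneg fun _ _ => sq_nonneg _)
  have hEU : E * (18 * U) ≤ 18 * C * V := by
    have h6 : U ^ 2 ≤ V ^ (1 / 4 : ℝ) := by
      have h7 : (U ^ 8) ^ (1 / 4 : ℝ) = U ^ 2 := by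
        rw [← Real.rpow_natCast, ← Real.rpow_mul hU0.le, ← Real.rpow_natCast]
        norm_num
      rw [← h7]
      exact Real.rpow_le_rpow (by positivity) hUV (by norm_num)
    have h8 : V ^ (1 / 4 : ℝ) * V ^ (3 / 4 : ℝ) = V := by
      rw [← Real.rpow_add hV0]; norm_num
    calc E * (18 * U) = 18 * C * (U ^ 2 * V ^ (3 / 4 : ℝ)) := by rw [hE]; ring
      _ ≤ 18 * C * (V ^ (1 / 4 : ℝ) * V ^ (3 / 4 : ℝ)) := by gcongr
      _ = 18 * C * V := by rw [h8]
  have hsum0 : 0 ≤ ∑ A ∈ bx U, c A ^ 2 := Finset.sum_nonneg fun _ _ => sq_nonneg _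
  calc 9 * V * ∑ A ∈ bx U, c A ^ 2 + E * (∑ A ∈ bx U, |c A|) ^ 2
      ≤ 9 * V * ∑ A ∈ bx U, c A ^ 2 + E * (18 * U * ∑ A ∈ bx U, c A ^ 2) := by gcongr
    _ = 9 * V * ∑ A ∈ bx U, c A ^ 2 + (E * (18 * U)) * ∑ A ∈ bx U, c A ^ 2 := by ring
    _ ≤ 9 * V * ∑ A ∈ bx U, c A ^ 2 + (18 * C * V) * ∑ A ∈ bx U, c A ^ 2 := by gcongr
    _ = _ := by ring

end Pool.Agent.Y678.PP
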