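import Pool.Agent.Y678.PP.Bas

/-!
# Project PP, job PP-CUT: from dyadic boxes to the hyperbola
-/

set_option autoImplicit false

open Finset

namespace Pool.Agent.Y678.PP

open Pool.Agent.Y690.PP

/-- the break points -/
noncomputable def brk (U : ℝ) (K : ℕ) (m : ℕ) : ℝ := U * (1 + m / K)

theorem brk_mono {U : ℝ} (hU : 0 ≤ U) (K : ℕ) {m n : ℕ} (h : m ≤ n) : brk U K m ≤ brk U K n := by
  unfold brk
  have : (m : ℝ) ≤ n := by exact_mod_cast h
  gcongr

/-- exactly one piece -/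
theorem piece_sum {U : ℝ} (hU : 1 ≤ U) {K : ℕ} (hK : 1 ≤ K) {n : ℝ} (h1 : U < n) (h2 : n ≤ 2 * U) :
    ∑ m ∈ range K, (if brk U K m < n ∧ n ≤ brk U K (m + 1) then (1 : ℝ) else 0) = 1 := by
  have hU0 : 0 < U := by linarith
  have hK0 : (0 : ℝ) < K := by exact_mod_cast hK
  set t : ℝ := K * (n / U - 1) with ht
  have hnU : 1 < n / U := by rw [lt_div_iff₀ hU0]; linarith
  have hnU2 : n / U ≤ 2 := by rw [div_le_iff₀ hU0]; linarith
  have ht0 : 0 < t := by rw [ht]; apply mul_pos hK0; linarith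
  have htK : t ≤ K := by
    rw [ht]; nlinarith
  have hc1 : 1 ≤ ⌈t⌉₊ := Nat.one_le_ceil_iff.2 ht0
  have hcK : ⌈t⌉₊ ≤ K := by
    rw [Nat.ceil_le]; exact htK
  set m0 : ℕ := ⌈t⌉₊ - 1 with hm0
  have hm0K : m0 ∈ range K := by rw [Finset.mem_range]; omega
  have hn : n = U * (1 + t / K) := by
    rw [ht]; field_simp; ring
  have hiff : ∀ m : ℕ, (brk U K m < n ∧ n ≤ brk U K (m + 1)) ↔ m = m0 := by
    intro m
    have e1 : brk U K m < n ↔ (m : ℝ) < t := by
      unfold brk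
      rw [hn, mul_lt_mul_iff_right₀ hU0, add_lt_add_iff_left, div_lt_div_iff_of_pos_right hK0]
    have e2 : n ≤ brk U K (m + 1) ↔ t ≤ (m + 1 : ℕ) := by
      unfold brk
      rw [hn, mul_le_mul_iff_right₀ hU0, add_le_add_iff_left, div_le_div_iff_of_pos_right hK0]
    rw [e1, e2, ← Nat.lt_ceil, ← Nat.ceil_le]
    omega
  rw [Finset.sum_eq_single m0]
  · rw [if_pos ((hiff m0).2 rfl)]
  · intro m _ hm
    rw [if_neg]
    rw [hiff]; exact hm
  · intro h; exact absurd hm0K h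

/-- at most one piece -/
theorem piece_le {U : ℝ} (hU : 1 ≤ U) (K : ℕ) {n Y : ℝ} (hn : 0 ≤ n) :
    ∑ m ∈ range K, (if n * brk U K m ≤ Y ∧ Y < n * brk U K (m + 1) then (1 : ℝ) else 0) ≤ 1 := by
  rw [Finset.sum_ite, Finset.sum_const_zero, add_zero, Finset.sum_const, nsmul_eq_mul, mul_one]
  have : #((range K).filter fun m => n * brk U K m ≤ Y ∧ Y < n * brk U K (m + 1)) ≤ 1 := by
    rw [Finset.card_le_one]
    intro a ha b hb
    rw [Finset.mem_filter] at ha hb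
    by_contra hab
    rcases lt_or_gt_of_ne hab with h | h
    · have := mul_le_mul_of_nonneg_left (brk_mono (by linarith : (0 : ℝ) ≤ U) K (show a + 1 ≤ b from h)) hn
      linarith [ha.2.2, hb.2.1]
    · have := mul_le_mul_of_nonneg_left (brk_mono (by linarith : (0 : ℝ) ≤ U) K (show b + 1 ≤ a from h)) hn
      linarith [hb.2.2, ha.2.1]
  exact_mod_cast this

/-- a small annulus -/
theorem piece_card (h4 : SFAC) {C : ℝ} (hC0 : 0 < C) (hC : ∀ x y : ℝ, 1 ≤ x → 1 ≤ y →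
    (#((FF gN (x + y)).filter fun A => x < (NN gN A : ℝ)) : ℝ) ≤ C * ((x + y) * y) ^ (1 / 2 : ℝ))
    {U : ℝ} (hU : 1 ≤ U) {K : ℕ} (hK : 1 ≤ K) (hKU : (K : ℝ) ≤ 2 * U) {m : ℕ} (hm : m < K) :
    (#((bx U).filter fun A => brk U K m < (NN gN A : ℝ) ∧ (NN gN A : ℝ) ≤ brk U K (m + 1)) : ℝ) ≤
      3 * C * U * (K : ℝ) ^ (-(1 / 2) : ℝ) := by
  have hU0 : 0 < U := by linarith
  have hK0 : (0 : ℝ) < K := by exact_mod_cast hK
  have hmK : (m : ℝ) + 1 ≤ K := by exact_mod_cast hm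
  have hx : 1 ≤ brk U K m := by
    unfold brk
    have : 0 ≤ (m : ℝ) / K := by positivity
    nlinarith
  have hy : (1 : ℝ) ≤ U / K + 1 := by
    have : 0 ≤ U / (K : ℝ) := by positivity
    linarith
  have h1 := hC (brk U K m) (U / K + 1) hx hy
  have hsub : (bx U).filter (fun A => brk U K m < (NN gN A : ℝ) ∧ (NN gN A : ℝ) ≤ brk U K (m + 1)) ⊆
      (FF gN (brk U K m + (U / K + 1))).filter fun A => brk U K m < (NN gN A : ℝ) := by
    intro A hA
    rw [Finset.mem_filter] at hA ⊢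
    rw [mem_FF h4]
    refine ⟨hA.2.2.trans ?_, hA.2.1⟩
    unfold brk
    push_cast
    rw [add_div]
    nlinarith [mul_div_assoc U 1 (K : ℝ), mul_one_div U (K : ℝ)]
  have h2 : (#((bx U).filter fun A => brk U K m < (NN gN A : ℝ) ∧ (NN gN A : ℝ) ≤ brk U K (m + 1)) : ℝ) ≤
      C * ((brk U K m + (U / K + 1)) * (U / K + 1)) ^ (1 / 2 : ℝ) := by
    refine le_trans ?_ h1
    exact_mod_cast Finset.card_le_card hsub
  refine h2.trans ?_
  have h3 : (brk U K m + (U / K + 1)) * (U / K + 1) ≤ 9 * U ^ 2 * (K : ℝ)⁻¹ := by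
    have e1 : brk U K m + U / K ≤ 2 * U := by
      unfold brk
      have : U * (1 + (m : ℝ) / K) + U / K = U * (1 + (m + 1) / K) := by ring
      rw [this]
      have : ((m : ℝ) + 1) / K ≤ 1 := by rw [div_le_one hK0]; exact hmK
      nlinarith
    have e2 : 1 ≤ 2 * (U / K) := by
      rw [← mul_div_assoc, le_div_iff₀ hK0]; linarith
    calc (brk U K m + (U / K + 1)) * (U / K + 1) ≤ (3 * U) * (3 * (U / K)) := by
          gcongr
          · linarith
          · linarith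
      _ = 9 * U ^ 2 * (K : ℝ)⁻¹ := by rw [div_eq_mul_inv]; ring
  have h5 : ((brk U K m + (U / K + 1)) * (U / K + 1)) ^ (1 / 2 : ℝ) ≤ 3 * U * (K : ℝ) ^ (-(1 / 2) : ℝ) := by
    calc _ ≤ (9 * U ^ 2 * (K : ℝ)⁻¹) ^ (1 / 2 : ℝ) := by
          apply Real.rpow_le_rpow _ h3 (by norm_num)
          positivity
      _ = 3 * U * (K : ℝ) ^ (-(1 / 2) : ℝ) := by
          rw [Real.mul_rpow (by positivity) (by positivity)]
          have : (9 * U ^ 2 : ℝ) ^ (1 / 2 : ℝ) = 3 * U := by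
            rw [← Real.sqrt_eq_rpow, show (9 * U ^ 2 : ℝ) = (3 * U) ^ 2 by ring,
              Real.sqrt_sq (by positivity)]
          rw [this, Real.inv_rpow (by positivity), Real.rpow_neg (by positivity)]
  calc C * ((brk U K m + (U / K + 1)) * (U / K + 1)) ^ (1 / 2 : ℝ)
      ≤ C * (3 * U * (K : ℝ) ^ (-(1 / 2) : ℝ)) := by gcongr
    _ = _ := by ring

open Classical in
/-- the bilinear sum over a box under the hyperbola -/
theorem box_cut (h2 : SANN) (h4 : SFAC) (h5 : SBOX) : ∃ C δ : ℝ, 0 < C ∧ 0 < δ ∧ ∀ a b : Finset Pr → ℝ,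
    (∀ A, |a A| ≤ 1) → (∀ B, |b B| ≤ 1) → ∀ U V Y : ℝ, 1 ≤ U → U ≤ V →
      |∑ A ∈ bx U, ∑ B ∈ bx V, if (NN gN A : ℝ) * NN gN B ≤ Y then a A * b B * sy gs A B else 0| ≤
        C * U * V * U ^ (-δ) := by
  obtain ⟨C1, hC10, hC1⟩ := ann_bound h2 h4
  obtain ⟨C2, hC20, hC2⟩ := bx_bound h2 h4
  obtain ⟨C3, δ3, hδ3, hC3⟩ := h5
  set δ : ℝ := min δ3 1 with hδ
  have hδ0 : 0 < δ := lt_min hδ3 one_pos
  have hδ1 : δ ≤ 1 := min_le_right _ _
  set C4 : ℝ := max C3 1 with hC4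
  have hC40 : 0 < C4 := by positivity
  refine ⟨2 * C4 + 3 * C1 * C2, δ / 4, by positivity, by positivity, ?_⟩
  intro a b ha hb U V Y hU hUV
  have hU0 : 0 < U := by linarith
  have hV0 : 0 < V := by linarith
  have hbox : ∀ a b : Finset Pr → ℝ, (∀ A, |a A| ≤ 1) → (∀ B, |b B| ≤ 1) →
      |∑ A ∈ bx U, ∑ B ∈ bx V, a A * b B * sy gs A B| ≤ C4 * U * V * U ^ (-δ) := by
    intro a b ha hb
    refine (hC3 a b ha hb U V hU hUV).trans ?_
    have : U ^ (-δ3) ≤ U ^ (-δ) := by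
      apply Real.rpow_le_rpow_of_exponent_le hU
      have := min_le_left δ3 1
      linarith
    have h0 : 0 ≤ U ^ (-δ3) := by positivity
    have h0' : 0 ≤ U ^ (-δ) := by positivity
    calc C3 * U * V * U ^ (-δ3) ≤ C4 * U * V * U ^ (-δ3) := by
          gcongr
          exact le_max_left _ _
      _ ≤ _ := by gcongr
  set K : ℕ := ⌊U ^ (δ / 2)⌋₊ + 1 with hK
  have hK1 : 1 ≤ K := by omega
  have hK0 : (0 : ℝ) < K := by exact_mod_cast hK1
  have hpow1 : 1 ≤ U ^ (δ / 2) := Real.one_le_rpow hU (by positivity)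
  have hKlo : U ^ (δ / 2) ≤ K := by
    rw [hK]; push_cast; exact (Nat.lt_floor_add_one _).le
  have hKhi : (K : ℝ) ≤ 2 * U ^ (δ / 2) := by
    rw [hK]; push_cast
    have := Nat.floor_le (show 0 ≤ U ^ (δ / 2) by positivity)
    linarith
  have hpowU : U ^ (δ / 2) ≤ U := by
    calc U ^ (δ / 2) ≤ U ^ (1 : ℝ) := Real.rpow_le_rpow_of_exponent_le hU (by linarith)
      _ = U := Real.rpow_one U
  have hKU : (K : ℝ) ≤ 2 * U := by linarith
  -- the indicator of a piece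
  let c : ℕ → Finset Pr → ℝ := fun m A =>
    if brk U K m < (NN gN A : ℝ) ∧ (NN gN A : ℝ) ≤ brk U K (m + 1) then 1 else 0
  let d : ℕ → Finset Pr → ℝ := fun m B =>
    if (NN gN B : ℝ) * brk U K m ≤ Y ∧ Y < (NN gN B : ℝ) * brk U K (m + 1) then 1 else 0
  let b' : ℕ → Finset Pr → ℝ := fun m B => if (NN gN B : ℝ) * brk U K (m + 1) ≤ Y then b B else 0
  have hc01 : ∀ m A, c m A = 0 ∨ c m A = 1 := by
    intro m A
    simp only [c]
    split_ifs <;> simp
  have hc1 : ∀ m A, |c m A| ≤ 1 := by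
    intro m A
    rcases hc01 m A with h | h <;> rw [h] <;> norm_num
  have hc0 : ∀ m A, 0 ≤ c m A := by
    intro m A
    rcases hc01 m A with h | h <;> rw [h] <;> norm_num
  have hd0 : ∀ m B, 0 ≤ d m B := by
    intro m B
    simp only [d]
    split_ifs <;> norm_num
  have hb' : ∀ m B, |b' m B| ≤ 1 := by
    intro m B
    simp only [b']
    split_ifs
    · exact hb B
    · simp
  -- pointwise
  have hpt : ∀ A ∈ bx U, ∀ B ∈ bx V,
      |(if (NN gN A : ℝ) * NN gN B ≤ Y then a A * b B * sy gs A B else 0) -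
        ∑ m ∈ range K, c m A * a A * b' m B * sy gs A B| ≤ ∑ m ∈ range K, c m A * d m B := by
    intro A hA B hB
    rw [mem_bx h4] at hA
    have hs : ∑ m ∈ range K, c m A = 1 := piece_sum hU hK1 hA.2 hA.1
    have hB0 : (0 : ℝ) < NN gN B := by linarith [one_le_NN B]
    have e1 : (if (NN gN A : ℝ) * NN gN B ≤ Y then a A * b B * sy gs A B else 0) =
        ∑ m ∈ range K, c m A * (if (NN gN A : ℝ) * NN gN B ≤ Y then a A * b B * sy gs A B else 0) := by
      rw [← Finset.sum_mul, hs, one_mul]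
    rw [e1, ← Finset.sum_sub_distrib]
    refine (Finset.abs_sum_le_sum_abs _ _).trans (Finset.sum_le_sum fun m _ => ?_)
    rcases eq_or_ne (c m A) 0 with h0 | h0
    · rw [h0]; simp
    · have hcm : brk U K m < (NN gN A : ℝ) ∧ (NN gN A : ℝ) ≤ brk U K (m + 1) := by
        by_contra hcon
        exact h0 (by simp only [c]; rw [if_neg hcon])
      have hc1' : c m A = 1 := by
        simp only [c]; rw [if_pos hcm]
      rw [hc1', one_mul, one_mul, one_mul]
      by_cases hx : (NN gN B : ℝ) * brk U K (m + 1) ≤ Y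
      · have hy : (NN gN A : ℝ) * NN gN B ≤ Y := by
          refine le_trans ?_ hx
          rw [mul_comm]
          gcongr
          exact hcm.2
        have : b' m B = b B := by simp only [b']; rw [if_pos hx]
        rw [if_pos hy, this, sub_self, abs_zero]
        exact hd0 m B
      · have hb0 : b' m B = 0 := by simp only [b']; rw [if_neg hx]
        rw [hb0, mul_zero, zero_mul, sub_zero]
        push Not at hx
        by_cases hy : (NN gN A : ℝ) * NN gN B ≤ Y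
        · rw [if_pos hy]
          have hd1 : d m B = 1 := by
            simp only [d]
            rw [if_pos]
            refine ⟨le_trans ?_ hy, hx⟩
            rw [mul_comm (NN gN A : ℝ)]
            gcongr
            exact hcm.1.le
          rw [hd1, abs_mul, abs_mul]
          have h1 := ha A
          have h2 := hb B
          have h3 := sy_abs A B
          have : |a A| * |b B| ≤ 1 := mul_le_one₀ h1 (abs_nonneg _) h2
          exact mul_le_one₀ this (abs_nonneg _) h3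
        · rw [if_neg hy, abs_zero]
          exact hd0 m B
  -- main parts
  set S := ∑ A ∈ bx U, ∑ B ∈ bx V, (if (NN gN A : ℝ) * NN gN B ≤ Y then a A * b B * sy gs A B else 0)
    with hS
  set P := ∑ m ∈ range K, ∑ A ∈ bx U, ∑ B ∈ bx V, c m A * a A * b' m B * sy gs A B with hP
  have hP' : P = ∑ A ∈ bx U, ∑ B ∈ bx V, ∑ m ∈ range K, c m A * a A * b' m B * sy gs A B := by
    rw [hP, Finset.sum_comm]
    refine Finset.sum_congr rfl fun A _ => ?_
    rw [Finset.sum_comm]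
  have hdiff : |S - P| ≤ ∑ A ∈ bx U, ∑ B ∈ bx V, ∑ m ∈ range K, c m A * d m B := by
    rw [hS, hP', ← Finset.sum_sub_distrib]
    refine (Finset.abs_sum_le_sum_abs _ _).trans (Finset.sum_le_sum fun A hA => ?_)
    rw [← Finset.sum_sub_distrib]
    exact (Finset.abs_sum_le_sum_abs _ _).trans (Finset.sum_le_sum fun B hB => hpt A hA B hB)
  have hPb : |P| ≤ K * (C4 * U * V * U ^ (-δ)) := by
    rw [hP]
    refine (Finset.abs_sum_le_sum_abs _ _).trans ?_
    calc ∑ m ∈ range K, |∑ A ∈ bx U, ∑ B ∈ bx V, c m A * a A * b' m B * sy gs A B|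
        ≤ ∑ m ∈ range K, (C4 * U * V * U ^ (-δ)) := by
          refine Finset.sum_le_sum fun m _ => ?_
          refine hbox (fun A => c m A * a A) (b' m) (fun A => ?_) (hb' m)
          rw [abs_mul]
          exact mul_le_one₀ (hc1 m A) (abs_nonneg _) (ha A)
      _ = _ := by rw [Finset.sum_const, Finset.card_range, nsmul_eq_mul]
  have hcs : ∀ m ∈ range K, ∑ A ∈ bx U, c m A ≤ 3 * C1 * U * (K : ℝ) ^ (-(1 / 2) : ℝ) := by
    intro m hm
    rw [Finset.mem_range] at hm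
    have := piece_card h4 hC10 hC1 hU hK1 hKU hm
    refine le_trans (le_of_eq ?_) this
    simp only [c]
    rw [Finset.sum_ite, Finset.sum_const_zero, add_zero, Finset.sum_const, nsmul_eq_mul, mul_one]
  have hQb : ∑ A ∈ bx U, ∑ B ∈ bx V, ∑ m ∈ range K, c m A * d m B ≤
      3 * C1 * U * (K : ℝ) ^ (-(1 / 2) : ℝ) * (C2 * V) := by
    have e1 : ∑ A ∈ bx U, ∑ B ∈ bx V, ∑ m ∈ range K, c m A * d m B =
        ∑ m ∈ range K, (∑ A ∈ bx U, c m A) * ∑ B ∈ bx V, d m B := by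
      have : ∀ A ∈ bx U, ∑ B ∈ bx V, ∑ m ∈ range K, c m A * d m B =
          ∑ m ∈ range K, ∑ B ∈ bx V, c m A * d m B := fun A _ => Finset.sum_comm
      rw [Finset.sum_congr rfl this, Finset.sum_comm]
      refine Finset.sum_congr rfl fun m _ => ?_
      rw [Finset.sum_mul_sum]
    rw [e1]
    calc ∑ m ∈ range K, (∑ A ∈ bx U, c m A) * ∑ B ∈ bx V, d m B
        ≤ ∑ m ∈ range K, (3 * C1 * U * (K : ℝ) ^ (-(1 / 2) : ℝ)) * ∑ B ∈ bx V, d m B := by
          refine Finset.sum_le_sum fun m hm => ?_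
          refine mul_le_mul_of_nonneg_right (hcs m hm) (Finset.sum_nonneg fun B _ => hd0 m B)
      _ = (3 * C1 * U * (K : ℝ) ^ (-(1 / 2) : ℝ)) * ∑ B ∈ bx V, ∑ m ∈ range K, d m B := by
          rw [← Finset.mul_sum, Finset.sum_comm]
      _ ≤ (3 * C1 * U * (K : ℝ) ^ (-(1 / 2) : ℝ)) * ∑ B ∈ bx V, (1 : ℝ) := by
          refine mul_le_mul_of_nonneg_left (Finset.sum_le_sum fun B _ => ?_) (by positivity)
          exact piece_le hU K (by linarith [one_le_NN B])
      _ ≤ (3 * C1 * U * (K : ℝ) ^ (-(1 / 2) : ℝ)) * (C2 * V) := by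
          refine mul_le_mul_of_nonneg_left ?_ (by positivity)
          rw [Finset.sum_const, nsmul_eq_mul, mul_one]
          exact hC2 V (by linarith)
  -- numerics
  have hUpos : 0 < U ^ (-(δ / 4)) := by positivity
  have n1 : (K : ℝ) * (C4 * U * V * U ^ (-δ)) ≤ 2 * C4 * U * V * U ^ (-(δ / 4)) := by
    have e : (K : ℝ) * U ^ (-δ) ≤ 2 * U ^ (-(δ / 4)) := by
      calc (K : ℝ) * U ^ (-δ) ≤ (2 * U ^ (δ / 2)) * U ^ (-δ) := by gcongr
        _ = 2 * U ^ (-(δ / 2)) := by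
            rw [mul_assoc, ← Real.rpow_add hU0]; ring_nf
        _ ≤ 2 * U ^ (-(δ / 4)) := by
            have := Real.rpow_le_rpow_of_exponent_le hU (show -(δ / 2) ≤ -(δ / 4) by linarith)
            linarith
    calc (K : ℝ) * (C4 * U * V * U ^ (-δ)) = (C4 * U * V) * ((K : ℝ) * U ^ (-δ)) := by ring
      _ ≤ (C4 * U * V) * (2 * U ^ (-(δ / 4))) := by gcongr
      _ = _ := by ring
  have n2 : (K : ℝ) ^ (-(1 / 2) : ℝ) ≤ U ^ (-(δ / 4)) := by
    calc (K : ℝ) ^ (-(1 / 2) : ℝ) ≤ (U ^ (δ / 2)) ^ (-(1 / 2) : ℝ) :=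
          Real.rpow_le_rpow_of_nonpos (by positivity) hKlo (by norm_num)
      _ = U ^ (-(δ / 4)) := by
          rw [← Real.rpow_mul hU0.le]; ring_nf
  have hfin : |S| ≤ |P| + |S - P| := by
    have := abs_add_le P (S - P)
    simpa using this
  calc |S| ≤ |P| + |S - P| := hfin
    _ ≤ 2 * C4 * U * V * U ^ (-(δ / 4)) + 3 * C1 * U * (K : ℝ) ^ (-(1 / 2) : ℝ) * (C2 * V) := by
        exact add_le_add (hPb.trans n1) (hdiff.trans hQb)
    _ ≤ 2 * C4 * U * V * U ^ (-(δ / 4)) + 3 * C1 * U * U ^ (-(δ / 4)) * (C2 * V) := by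
        gcongr
    _ = _ := by ring

/-- dyadic decomposition -/
theorem dyad (h4 : SFAC) (f : Finset Pr → ℝ) (Y : ℝ) (L : ℕ) (hL : Y ≤ 2 ^ L)
    (hf : ∀ A, f A ≠ 0 → 1 < (NN gN A : ℝ) ∧ (NN gN A : ℝ) ≤ Y) :
    ∑ A ∈ FF gN Y, f A = ∑ i ∈ range L, ∑ A ∈ bx ((2 : ℝ) ^ i), f A := by
  classical
  have hdisj : Set.PairwiseDisjoint (↑(range L) : Set ℕ) fun i => bx ((2 : ℝ) ^ i) := by
    intro i _ j _ hij
    rw [Function.onFun, Finset.disjoint_left]
    intro A hA hB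
    rw [mem_bx h4] at hA hB
    rcases lt_or_gt_of_ne hij with h | h
    · have : (2 : ℝ) ^ (i + 1) ≤ 2 ^ j := pow_le_pow_right₀ (by norm_num) h
      rw [pow_succ] at this
      linarith [hA.1, hB.2]
    · have : (2 : ℝ) ^ (j + 1) ≤ 2 ^ i := pow_le_pow_right₀ (by norm_num) h
      rw [pow_succ] at this
      linarith [hA.2, hB.1]
  rw [← Finset.sum_biUnion hdisj]
  have h1 : ∑ A ∈ FF gN Y, f A = ∑ A ∈ FF gN Y ∪ (range L).biUnion fun i => bx ((2 : ℝ) ^ i), f A := by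
    refine Finset.sum_subset Finset.subset_union_left fun A _ hA => ?_
    by_contra h
    exact hA ((mem_FF h4).2 (hf A h).2)
  rw [h1]
  symm
  refine Finset.sum_subset Finset.subset_union_right fun A _ hA => ?_
  by_contra h
  obtain ⟨ha, hb⟩ := hf A h
  apply hA
  rw [Finset.mem_biUnion]
  have hn : 1 < NN gN A := by exact_mod_cast ha
  refine ⟨Nat.log 2 (NN gN A - 1), ?_, ?_⟩
  · rw [Finset.mem_range]
    have h2 : NN gN A ≤ 2 ^ L := by
      have : (NN gN A : ℝ) ≤ ((2 ^ L : ℕ) : ℝ) := by push_cast; linarith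
      exact_mod_cast this
    apply Nat.log_lt_of_lt_pow
    · omega
    · omega
  · rw [mem_bx h4]
    have h3 : 2 ^ (Nat.log 2 (NN gN A - 1)) ≤ NN gN A - 1 := Nat.pow_log_le_self 2 (by omega)
    have h4' : NN gN A - 1 < 2 ^ (Nat.log 2 (NN gN A - 1) + 1) := Nat.lt_pow_succ_log_self (by norm_num) _
    constructor
    · have : NN gN A ≤ 2 * 2 ^ (Nat.log 2 (NN gN A - 1)) := by
        rw [pow_succ] at h4'; omega
      exact_mod_cast this
    · have : 2 ^ (Nat.log 2 (NN gN A - 1)) < NN gN A := by omega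
      exact_mod_cast this

/-- the number of dyadic boxes -/
theorem exists_len {Y : ℝ} (hY : 1 ≤ Y) : ∃ L : ℕ, Y ≤ 2 ^ L ∧ (L : ℝ) ≤ 2 * (1 + Real.log Y) := by
  have hY0 : 0 < Y := by linarith
  have hl : 0 ≤ Real.log Y := Real.log_nonneg hY
  have hl2 : (1 / 2 : ℝ) < Real.log 2 := by linarith [Real.log_two_gt_d9]
  refine ⟨⌈Real.log Y / Real.log 2⌉₊, ?_, ?_⟩
  · have h1 : Real.log Y / Real.log 2 ≤ (⌈Real.log Y / Real.log 2⌉₊ : ℝ) := Nat.le_ceil _
    rw [div_le_iff₀ (by linarith)] at h1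
    rw [← Real.log_le_log_iff hY0 (by positivity), Real.log_pow]
    exact h1
  · have h1 : (⌈Real.log Y / Real.log 2⌉₊ : ℝ) < Real.log Y / Real.log 2 + 1 :=
      Nat.ceil_lt_add_one (by positivity)
    have h2 : Real.log Y / Real.log 2 ≤ 2 * Real.log Y := by
      rw [div_le_iff₀ (by linarith)]
      nlinarith
    linarith

open Classical in
/-- a box with both orders of the sides -/
theorem box_cut2 (h1 : SREC) (h2 : SANN) (h4 : SFAC) (h5 : SBOX) : ∃ C δ : ℝ, 0 < C ∧ 0 < δ ∧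
    ∀ a b : Finset Pr → ℝ, (∀ A, |a A| ≤ 1) → (∀ B, |b B| ≤ 1) → ∀ U V Y : ℝ, 1 ≤ U → 1 ≤ V →
      |∑ A ∈ bx U, ∑ B ∈ bx V, if (NN gN A : ℝ) * NN gN B ≤ Y then a A * b B * sy gs A B else 0| ≤
        C * U * V * (min U V) ^ (-δ) := by
  obtain ⟨C, δ, hC, hδ, H⟩ := box_cut h2 h4 h5
  refine ⟨C, δ, hC, hδ, ?_⟩
  intro a b ha hb U V Y hU hV
  rcases le_total U V with h | h
  · rw [min_eq_left h]
    exact H a b ha hb U V Y hU h
  · rw [min_eq_right h]
    have := H b a hb ha V U Y hV h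
    rw [Finset.sum_comm] at this
    refine le_trans (le_of_eq ?_) (this.trans (le_of_eq ?_))
    · congr 1
      refine Finset.sum_congr rfl fun A _ => Finset.sum_congr rfl fun B _ => ?_
      rw [sy_symm h1 A B, mul_comm (NN gN A : ℝ), mul_comm (a A)]
    · ring

/-- Job PP-CUT. -/
theorem t_A4 (h1 : SREC) (h2 : SANN) (h4 : SFAC) (h5 : SBOX) : A4 gN gs := by
  classical
  obtain ⟨C, δ, hC, hδ, H⟩ := box_cut2 h1 h2 h4 h5
  refine ⟨4 * (C * 2 ^ δ), δ, 2, hδ, ?_⟩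
  intro a b ha hb Z Y hZ hY
  have hZ0 : 0 < Z := by linarith
  have hY0 : 0 < Y := by linarith
  obtain ⟨L, hL1, hL2⟩ := exists_len hY
  set a' : Finset Pr → ℝ := fun A => if Z < NN gN A then a A else 0 with ha'
  set b' : Finset Pr → ℝ := fun B => if Z < NN gN B then b B else 0 with hb'
  have ha1 : ∀ A, |a' A| ≤ 1 := by
    intro A; simp only [ha']; split_ifs
    · exact ha A
    · simp
  have hb1 : ∀ A, |b' A| ≤ 1 := by
    intro A; simp only [hb']; split_ifs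
    · exact hb A
    · simp
  set g : Finset Pr → Finset Pr → ℝ := fun A B =>
    if (NN gN A : ℝ) * NN gN B ≤ Y then a' A * b' B * sy gs A B else 0 with hg
  have hg0 : ∀ A B, g A B ≠ 0 → Z < NN gN A ∧ Z < NN gN B ∧ (NN gN A : ℝ) ≤ Y ∧ (NN gN B : ℝ) ≤ Y ∧
      (NN gN A : ℝ) * NN gN B ≤ Y := by
    intro A B h
    have k1 : (NN gN A : ℝ) * NN gN B ≤ Y := by
      by_contra hc
      exact h (by simp only [hg]; rw [if_neg hc])
    have k2 : Z < NN gN A := by
      by_contra hc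
      apply h
      simp only [hg, ha']
      rw [if_neg hc]; simp
    have k3 : Z < NN gN B := by
      by_contra hc
      apply h
      simp only [hg, hb']
      rw [if_neg hc]; simp
    refine ⟨k2, k3, ?_, ?_, k1⟩
    · nlinarith [one_le_NN A, one_le_NN B]
    · nlinarith [one_le_NN A, one_le_NN B]
  have e0 : (∑ A ∈ FF gN Y, ∑ B ∈ FF gN Y,
      if Z < NN gN A ∧ Z < NN gN B ∧ (NN gN A : ℝ) * NN gN B ≤ Y then a A * b B * sy gs A B else 0) =
      ∑ A ∈ FF gN Y, ∑ B ∈ FF gN Y, g A B := by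
    refine Finset.sum_congr rfl fun A _ => Finset.sum_congr rfl fun B _ => ?_
    simp only [hg, ha', hb']
    by_cases k1 : Z < NN gN A <;> by_cases k2 : Z < NN gN B <;>
      by_cases k3 : (NN gN A : ℝ) * NN gN B ≤ Y <;> simp [k1, k2, k3]
  rw [e0]
  have e1 : ∑ A ∈ FF gN Y, ∑ B ∈ FF gN Y, g A B =
      ∑ i ∈ range L, ∑ j ∈ range L, ∑ A ∈ bx ((2 : ℝ) ^ i), ∑ B ∈ bx ((2 : ℝ) ^ j), g A B := by
    rw [dyad h4 (fun A => ∑ B ∈ FF gN Y, g A B) Y L hL1]
    · refine Finset.sum_congr rfl fun i _ => ?_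
      rw [Finset.sum_comm (s := range L)]
      refine Finset.sum_congr rfl fun A _ => ?_
      rw [dyad h4 (fun B => g A B) Y L hL1]
      intro B hB
      obtain ⟨_, h2, _, h3, _⟩ := hg0 A B hB
      exact ⟨by linarith, h3⟩
    · intro A hA
      obtain ⟨B, _, hB⟩ := Finset.exists_ne_zero_of_sum_ne_zero hA
      obtain ⟨h2, _, h3, _⟩ := hg0 A B hB
      exact ⟨by linarith, h3⟩
  rw [e1]
  have hbd : ∀ i ∈ range L, ∀ j ∈ range L,
      |∑ A ∈ bx ((2 : ℝ) ^ i), ∑ B ∈ bx ((2 : ℝ) ^ j), g A B| ≤ C * 2 ^ δ * Y * Z ^ (-δ) := by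
    intro i _ j _
    set U : ℝ := 2 ^ i with hU
    set V : ℝ := 2 ^ j with hV
    have hU1 : 1 ≤ U := one_le_pow₀ (by norm_num)
    have hV1 : 1 ≤ V := one_le_pow₀ (by norm_num)
    have hpos : 0 ≤ C * 2 ^ δ * Y * Z ^ (-δ) := by positivity
    by_cases hz : ∑ A ∈ bx U, ∑ B ∈ bx V, g A B = 0
    · rw [hz, abs_zero]; exact hpos
    · obtain ⟨A, hA, hA2⟩ := Finset.exists_ne_zero_of_sum_ne_zero hz
      obtain ⟨B, hB, hB2⟩ := Finset.exists_ne_zero_of_sum_ne_zero hA2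
      obtain ⟨k1, k2, _, _, k5⟩ := hg0 A B hB2
      rw [mem_bx h4] at hA hB
      have hUV : U * V ≤ Y := by
        refine le_trans ?_ k5
        have := hA.2.le
        have := hB.2.le
        gcongr
      have hmin : Z / 2 ≤ min U V := by
        apply le_min <;> linarith [hA.1, hB.1]
      refine (H a' b' ha1 hb1 U V Y hU1 hV1).trans ?_
      have e2 : (min U V) ^ (-δ) ≤ (Z / 2) ^ (-δ) :=
        Real.rpow_le_rpow_of_nonpos (by positivity) hmin (by linarith)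
      have e3 : (Z / 2) ^ (-δ) = 2 ^ δ * Z ^ (-δ) := by
        rw [Real.div_rpow hZ0.le (by norm_num), Real.rpow_neg (by norm_num : (0:ℝ) ≤ 2)]
        field_simp
      calc C * U * V * (min U V) ^ (-δ) ≤ C * U * V * (2 ^ δ * Z ^ (-δ)) := by
            rw [← e3]; gcongr
        _ = C * (U * V) * (2 ^ δ * Z ^ (-δ)) := by ring
        _ ≤ C * Y * (2 ^ δ * Z ^ (-δ)) := by gcongr
        _ = _ := by ring
  calc |∑ i ∈ range L, ∑ j ∈ range L, ∑ A ∈ bx ((2 : ℝ) ^ i), ∑ B ∈ bx ((2 : ℝ) ^ j), g A B|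
      ≤ ∑ i ∈ range L, ∑ j ∈ range L, C * 2 ^ δ * Y * Z ^ (-δ) := by
        refine (Finset.abs_sum_le_sum_abs _ _).trans (Finset.sum_le_sum fun i hi => ?_)
        exact (Finset.abs_sum_le_sum_abs _ _).trans (Finset.sum_le_sum fun j hj => hbd i hi j hj)
    _ = (L : ℝ) ^ 2 * (C * 2 ^ δ * Y * Z ^ (-δ)) := by
        simp only [Finset.sum_const, Finset.card_range, nsmul_eq_mul]; ring
    _ ≤ (2 * (1 + Real.log Y)) ^ 2 * (C * 2 ^ δ * Y * Z ^ (-δ)) := by
        gcongr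
    _ = _ := by ring

end Pool.Agent.Y678.PP
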